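import Pool.Agent.helper61.CSW.W.SpecW

set_option autoImplicit false

open Complex Metric Set Filter Topology MeasureTheory
open YPPS (fd fdd pre TT CV IsCyc rho Exact)
open MPS (BB)
open Pool.Agent.helper98.ILF (juliaSet fatouSet)

noncomputable section

open CSS (SE SV JJ)

namespace YW

/-- first coefficient -/
def SBS_al (p₁ p₂ v : ℂ) : ℂ := (v - p₂) / (p₁ - p₂)

/-- second coefficient -/
def SBS_be (p₁ p₂ v : ℂ) : ℂ := (v - p₁) / (p₂ - p₁)

/-- the kernel -/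
def SBS_k (p₁ p₂ v z : ℂ) : ℂ := 1 / (z - v) - SBS_al p₁ p₂ v / (z - p₁) - SBS_be p₁ p₂ v / (z - p₂)

theorem SBS_sum (p₁ p₂ v : ℂ) (h : p₁ ≠ p₂) : SBS_al p₁ p₂ v + SBS_be p₁ p₂ v = 1 ∧
    SBS_al p₁ p₂ v * p₁ + SBS_be p₁ p₂ v * p₂ = v := by
  have h1 : p₁ - p₂ ≠ 0 := sub_ne_zero.2 h
  have h2 : p₂ - p₁ = -(p₁ - p₂) := by ring
  unfold SBS_al SBS_be
  rw [h2]
  constructor
  · field_simp
    ring
  · field_simp
    ring

theorem SBS_int (hTRC : CSS.TRC_stmt) (p₁ p₂ v : ℂ) (h : p₁ ≠ p₂) : Integrable (SBS_k p₁ p₂ v) := by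
  have h0 := hTRC (Fin 3) Finset.univ ![1, -SBS_al p₁ p₂ v, -SBS_be p₁ p₂ v] ![v, p₁, p₂]
  obtain ⟨h1, h2⟩ := SBS_sum p₁ p₂ v h
  have h3 := h0 (by
    simp only [Fin.sum_univ_three, Matrix.cons_val_zero, Matrix.cons_val_one, Matrix.cons_val]
    linear_combination -h1) (by
    simp only [Fin.sum_univ_three, Matrix.cons_val_zero, Matrix.cons_val_one, Matrix.cons_val]
    linear_combination -h2)
  refine h3.congr (Filter.Eventually.of_forall fun z => ?_)
  simp only [Fin.sum_univ_three, Matrix.cons_val_zero, Matrix.cons_val_one, Matrix.cons_val, SBS_k]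
  ring

theorem SBS (hTRC : CSS.TRC_stmt) : SBS_stmt := by
  classical
  intro f X E n μ w hS
  have hne := X.ne
  have hn1 : X.p₁ ∉ SV f := X.ns1
  have hn2 : X.p₂ ∉ SV f := X.ns2
  have hn1' : X.p₁ ∉ insert X.p₂ (SV f) := by
    rw [Finset.mem_insert, not_or]
    exact ⟨hne, hn1⟩
  -- sums over `ES`
  have hES : ∀ g : ℂ → ℂ, ∑ e ∈ ES f X, g e = g X.p₁ + (g X.p₂ + ∑ v ∈ SV f, g v) := by
    intro g
    have : ES f X = insert X.p₁ (insert X.p₂ (SV f)) := by
      unfold ES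
      ext e
      simp only [Finset.mem_insert]
    rw [this, Finset.sum_insert hn1', Finset.sum_insert hn2]
  have hmem1 : X.p₁ ∈ ES f X := by unfold ES; simp
  have hmem2 : X.p₂ ∈ ES f X := by unfold ES; simp
  have hmemv : ∀ v ∈ SV f, v ∈ ES f X := by
    intro v hv
    unfold ES
    simp [hv]
  have hmem : ∀ e ∈ ES f X, e = X.p₁ ∨ e = X.p₂ ∨ e ∈ SV f := by
    intro e he
    unfold ES at he
    simpa [Finset.mem_insert] using he
  -- the moments determine the coefficients at `p₁, p₂`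
  have hdet : ∀ c : ℂ → ℂ, MZ (ES f X) c → c X.p₁ = -∑ v ∈ SV f, c v * SBS_al X.p₁ X.p₂ v ∧
      c X.p₂ = -∑ v ∈ SV f, c v * SBS_be X.p₁ X.p₂ v := by
    intro c hc
    obtain ⟨h0, h1⟩ := hc
    rw [hES] at h0 h1
    have hd : X.p₁ - X.p₂ ≠ 0 := sub_ne_zero.2 hne
    have e1 : ∑ v ∈ SV f, c v * SBS_al X.p₁ X.p₂ v = (∑ v ∈ SV f, c v * v - (∑ v ∈ SV f, c v) * X.p₂) / (X.p₁ - X.p₂) := by
      rw [Finset.sum_mul, ← Finset.sum_sub_distrib, Finset.sum_div]
      refine Finset.sum_congr rfl fun v _ => ?_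
      unfold SBS_al
      ring
    have e2 : ∑ v ∈ SV f, c v * SBS_be X.p₁ X.p₂ v = (∑ v ∈ SV f, c v * v - (∑ v ∈ SV f, c v) * X.p₁) / (X.p₂ - X.p₁) := by
      rw [Finset.sum_mul, ← Finset.sum_sub_distrib, Finset.sum_div]
      refine Finset.sum_congr rfl fun v _ => ?_
      unfold SBS_be
      ring
    have hd2 : X.p₂ - X.p₁ ≠ 0 := sub_ne_zero.2 (Ne.symm hne)
    constructor
    · rw [e1]
      have : (c X.p₁) * (X.p₁ - X.p₂) = -(∑ v ∈ SV f, c v * v - (∑ v ∈ SV f, c v) * X.p₂) := by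
        linear_combination h1 - X.p₂ * h0
      field_simp
      linear_combination this
    · rw [e2]
      have : (c X.p₂) * (X.p₂ - X.p₁) = -(∑ v ∈ SV f, c v * v - (∑ v ∈ SV f, c v) * X.p₁) := by
        linear_combination h1 - X.p₁ * h0
      field_simp
      linear_combination this
  -- the expansion
  have hexp : ∀ c : ℂ → ℂ, c X.p₁ = -∑ v ∈ SV f, c v * SBS_al X.p₁ X.p₂ v → c X.p₂ = -∑ v ∈ SV f, c v * SBS_be X.p₁ X.p₂ v →
      ∀ z, RS (ES f X) c z = ∑ v ∈ SV f, c v * SBS_k X.p₁ X.p₂ v z := by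
    intro c h1 h2 z
    unfold RS
    rw [hES (fun e => c e / (z - e)), h1, h2]
    have e3 : ∑ v ∈ SV f, c v * SBS_k X.p₁ X.p₂ v z = ∑ v ∈ SV f, c v / (z - v) - (∑ v ∈ SV f, c v * SBS_al X.p₁ X.p₂ v) / (z - X.p₁)
        - (∑ v ∈ SV f, c v * SBS_be X.p₁ X.p₂ v) / (z - X.p₂) := by
      rw [Finset.sum_div, Finset.sum_div, ← Finset.sum_sub_distrib, ← Finset.sum_sub_distrib]
      refine Finset.sum_congr rfl fun v _ => ?_
      unfold SBS_k
      ring
    rw [e3]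
    ring
  have hki : ∀ v, Integrable (SBS_k X.p₁ X.p₂ v) := fun v => SBS_int hTRC _ _ v hne
  have hmki : ∀ (i : Fin n) (v : ℂ), Integrable (fun z => μ i z * SBS_k X.p₁ X.p₂ v z) := by
    intro i v
    refine (hki v).bdd_mul (c := 1) (hS.fm i).meas.aestronglyMeasurable (Filter.Eventually.of_forall fun z => (hS.fm i).bd z)
  have hL : ∀ (c : ℂ → ℂ), c X.p₁ = -∑ v ∈ SV f, c v * SBS_al X.p₁ X.p₂ v → c X.p₂ = -∑ v ∈ SV f, c v * SBS_be X.p₁ X.p₂ v →
      ∀ i, ∫ z : ℂ, μ i z * RS (ES f X) c z = ∑ v ∈ SV f, c v * ∫ z : ℂ, μ i z * SBS_k X.p₁ X.p₂ v z := by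
    intro c h1 h2 i
    have e4 : ∀ z, μ i z * RS (ES f X) c z = ∑ v ∈ SV f, c v * (μ i z * SBS_k X.p₁ X.p₂ v z) := by
      intro z
      rw [hexp c h1 h2 z, Finset.mul_sum]
      refine Finset.sum_congr rfl fun v _ => ?_
      ring
    simp_rw [e4]
    rw [integral_finset_sum _ (fun v _ => (hmki i v).const_mul (c v))]
    refine Finset.sum_congr rfl fun v _ => ?_
    exact integral_const_mul _ _
  -- the linear map
  let A : (SV f → ℂ) →ₗ[ℂ] (Fin n → ℂ) :=
    { toFun := fun d i => ∑ v : SV f, d v * ∫ z : ℂ, μ i z * SBS_k X.p₁ X.p₂ v z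
      map_add' := by
        intro d d'
        funext i
        simp only [Pi.add_apply, add_mul, Finset.sum_add_distrib]
      map_smul' := by
        intro a d
        funext i
        simp only [Pi.smul_apply, smul_eq_mul, RingHom.id_apply, Finset.mul_sum, mul_assoc] }
  have hker : LinearMap.ker A = ⊥ := by
    rw [LinearMap.ker_eq_bot']
    intro d hd
    set c : ℂ → ℂ := fun e => if h : e ∈ SV f then d ⟨e, h⟩ else
      (if e = X.p₁ then -∑ v : SV f, d v * SBS_al X.p₁ X.p₂ v else (if e = X.p₂ then -∑ v : SV f, d v * SBS_be X.p₁ X.p₂ v else 0)) with hc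
    have hcv : ∀ v : SV f, c v = d v := by
      intro v
      simp only [hc]
      rw [dif_pos v.2]
    have hsum : ∀ g : ℂ → ℂ, ∑ v ∈ SV f, c v * g v = ∑ v : SV f, d v * g v := by
      intro g
      rw [← Finset.sum_coe_sort (SV f) (fun v => c v * g v)]
      refine Finset.sum_congr rfl fun v _ => ?_
      rw [hcv v]
    have h1 : c X.p₁ = -∑ v ∈ SV f, c v * SBS_al X.p₁ X.p₂ v := by
      rw [hsum]
      simp only [hc]
      rw [dif_neg hn1]
      exact if_pos trivial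
    have h2 : c X.p₂ = -∑ v ∈ SV f, c v * SBS_be X.p₁ X.p₂ v := by
      rw [hsum]
      simp only [hc]
      rw [dif_neg hn2, if_neg (Ne.symm hne)]
      exact if_pos trivial
    have hMZ : MZ (ES f X) c := by
      constructor
      · rw [hES, h1, h2]
        have : ∑ v ∈ SV f, c v = ∑ v ∈ SV f, c v * SBS_al X.p₁ X.p₂ v + ∑ v ∈ SV f, c v * SBS_be X.p₁ X.p₂ v := by
          rw [← Finset.sum_add_distrib]
          refine Finset.sum_congr rfl fun v _ => ?_
          linear_combination (-(c v)) * (SBS_sum X.p₁ X.p₂ v hne).1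
        rw [this]
        ring
      · rw [hES (fun e => c e * e), h1, h2]
        have : ∑ v ∈ SV f, c v * v = (∑ v ∈ SV f, c v * SBS_al X.p₁ X.p₂ v) * X.p₁ + (∑ v ∈ SV f, c v * SBS_be X.p₁ X.p₂ v) * X.p₂ := by
          rw [Finset.sum_mul, Finset.sum_mul, ← Finset.sum_add_distrib]
          refine Finset.sum_congr rfl fun v _ => ?_
          linear_combination (-(c v)) * (SBS_sum X.p₁ X.p₂ v hne).2
        rw [this]
        ring
    have h0 : ∀ i, ∫ z : ℂ, μ i z * RS (ES f X) c z = 0 := by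
      intro i
      rw [hL c h1 h2 i, hsum (fun v => ∫ z : ℂ, μ i z * SBS_k X.p₁ X.p₂ v z)]
      exact congrFun hd i
    have hz := hS.sp c hMZ h0
    funext v
    rw [← hcv v]
    exact hz v (hmemv v v.2)
  obtain ⟨K, hK0, hK⟩ := A.exists_antilipschitzWith hker
  set Ca : ℝ := ∑ v ∈ SV f, ‖SBS_al X.p₁ X.p₂ v‖ with hCa
  set Cb : ℝ := ∑ v ∈ SV f, ‖SBS_be X.p₁ X.p₂ v‖ with hCb
  set Ck : ℝ := ∑ v ∈ SV f, ∫ z : ℂ, ‖SBS_k X.p₁ X.p₂ v z‖ with hCk
  have hCa0 : 0 ≤ Ca := Finset.sum_nonneg fun v _ => norm_nonneg _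
  have hCb0 : 0 ≤ Cb := Finset.sum_nonneg fun v _ => norm_nonneg _
  have hCk0 : 0 ≤ Ck := Finset.sum_nonneg fun v _ => integral_nonneg fun z => norm_nonneg _
  have hKR : 0 < (K : ℝ) := by exact_mod_cast hK0
  refine ⟨K * (1 + Ca + Cb + Ck), by positivity, ?_⟩
  intro c M hc hM hcM
  obtain ⟨h1, h2⟩ := hdet c hc
  have hcv : ∀ v ∈ SV f, ‖c v‖ ≤ K * M := by
    intro v hv
    have h3 := hK.le_mul_dist (fun v : SV f => c v) 0
    rw [dist_zero_right, map_zero, dist_zero_right] at h3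
    have h4 : ‖A (fun v : SV f => c v)‖ ≤ M := by
      rw [pi_norm_le_iff_of_nonneg hM]
      intro i
      have h5 : A (fun v : SV f => c v) i = ∫ z : ℂ, μ i z * RS (ES f X) c z := by
        rw [hL c h1 h2 i, ← Finset.sum_coe_sort (SV f) (fun v => c v * ∫ z : ℂ, μ i z * SBS_k X.p₁ X.p₂ v z)]
        rfl
      rw [h5]
      exact hcM i
    calc ‖c v‖ ≤ ‖(fun v : SV f => c v)‖ := norm_le_pi_norm (fun v : SV f => c v) ⟨v, hv⟩
      _ ≤ K * ‖A (fun v : SV f => c v)‖ := h3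
      _ ≤ K * M := mul_le_mul_of_nonneg_left h4 hKR.le
  have hKM : 0 ≤ K * M := mul_nonneg hKR.le hM
  constructor
  · have h6 : ∀ z, ‖RS (ES f X) c z‖ ≤ ∑ v ∈ SV f, (K * M) * ‖SBS_k X.p₁ X.p₂ v z‖ := by
      intro z
      rw [hexp c h1 h2 z]
      refine (norm_sum_le _ _).trans (Finset.sum_le_sum fun v hv => ?_)
      rw [norm_mul]
      exact mul_le_mul_of_nonneg_right (hcv v hv) (norm_nonneg _)
    calc ∫ z : ℂ, ‖RS (ES f X) c z‖ ≤ ∫ z : ℂ, ∑ v ∈ SV f, (K * M) * ‖SBS_k X.p₁ X.p₂ v z‖ := by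
          refine integral_mono_of_nonneg (Filter.Eventually.of_forall fun z => norm_nonneg _) ?_ (Filter.Eventually.of_forall h6)
          exact integrable_finset_sum _ fun v _ => (hki v).norm.const_mul _
      _ = ∑ v ∈ SV f, (K * M) * ∫ z : ℂ, ‖SBS_k X.p₁ X.p₂ v z‖ := by
          rw [integral_finset_sum _ (fun v _ => (hki v).norm.const_mul _)]
          refine Finset.sum_congr rfl fun v _ => ?_
          exact integral_const_mul _ _
      _ = (K * M) * Ck := by rw [← Finset.mul_sum]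
      _ ≤ K * (1 + Ca + Cb + Ck) * M := by
          have : K * (1 + Ca + Cb + Ck) * M - (K * M) * Ck = (K * M) * (1 + Ca + Cb) := by ring
          nlinarith [mul_nonneg hKM (by linarith : 0 ≤ 1 + Ca + Cb)]
  · intro e he
    rcases hmem e he with rfl | rfl | hv
    · rw [h1, norm_neg]
      calc ‖∑ v ∈ SV f, c v * SBS_al X.p₁ X.p₂ v‖ ≤ ∑ v ∈ SV f, (K * M) * ‖SBS_al X.p₁ X.p₂ v‖ := by
            refine (norm_sum_le _ _).trans (Finset.sum_le_sum fun v hv => ?_)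
            rw [norm_mul]
            exact mul_le_mul_of_nonneg_right (hcv v hv) (norm_nonneg _)
        _ = (K * M) * Ca := by rw [← Finset.mul_sum]
        _ ≤ K * (1 + Ca + Cb + Ck) * M := by
            nlinarith [mul_nonneg hKM (by linarith : 0 ≤ 1 + Cb + Ck)]
    · rw [h2, norm_neg]
      calc ‖∑ v ∈ SV f, c v * SBS_be X.p₁ X.p₂ v‖ ≤ ∑ v ∈ SV f, (K * M) * ‖SBS_be X.p₁ X.p₂ v‖ := by
            refine (norm_sum_le _ _).trans (Finset.sum_le_sum fun v hv => ?_)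
            rw [norm_mul]
            exact mul_le_mul_of_nonneg_right (hcv v hv) (norm_nonneg _)
        _ = (K * M) * Cb := by rw [← Finset.mul_sum]
        _ ≤ K * (1 + Ca + Cb + Ck) * M := by
            nlinarith [mul_nonneg hKM (by linarith : 0 ≤ 1 + Ca + Ck)]
    · refine (hcv e hv).trans ?_
      nlinarith [mul_nonneg hKM (by linarith : 0 ≤ Ca + Cb + Ck)]

end YW
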